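import Pool.Agent.R48.KT.Stm

/-!
# Pieces B1 and B2 (n odd) of the Kasami triple counts
-/

namespace Pool.Agent.R906.KT

open Finset Pool.Agent.R48.KT
open scoped Classical

noncomputable section

set_option linter.unusedSectionVars false

variable {F : Type} [Field F] [Fintype F] [CharP F 2]

theorem sum_CC (p s e : F) :
    ∑ w : F, CC (p * w) * CC (s * w) * chi (e * w) = Fintype.card F *
      ∑ t : F, ∑ u : F, if p * (t ^ 3 + t) + s * (u ^ 3 + u) + e = 0 then (1 : ℤ) else 0 := by
  have h1 : ∀ w : F, CC (p * w) * CC (s * w) * chi (e * w) =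
      ∑ t : F, ∑ u : F, chi ((p * (t ^ 3 + t) + s * (u ^ 3 + u) + e) * w) := by
    intro w
    unfold CC
    rw [Finset.sum_mul_sum, Finset.sum_mul]
    apply Finset.sum_congr rfl
    intro t _
    rw [Finset.sum_mul]
    apply Finset.sum_congr rfl
    intro u _
    rw [← chi_add, ← chi_add]
    congr 1
    ring
  simp_rw [h1]
  rw [Finset.sum_comm, Finset.mul_sum]
  apply Finset.sum_congr rfl
  intro t _
  rw [Finset.sum_comm, Finset.mul_sum]
  apply Finset.sum_congr rfl
  intro u _
  rw [sum_chi_mul]
  split_ifs <;> simp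

theorem CC_zero : CC (0 : F) = Fintype.card F := by
  unfold CC
  simp [chi_zero]

theorem sum_erase_CC (p s e : F) :
    ∑ w ∈ univ.erase (0 : F), CC (p * w) * CC (s * w) * chi (e * w) = Fintype.card F *
      (∑ t : F, ∑ u : F, if p * (t ^ 3 + t) + s * (u ^ 3 + u) + e = 0 then (1 : ℤ) else 0) -
      (Fintype.card F : ℤ) ^ 2 := by
  rw [← sum_CC, ← Finset.add_sum_erase univ _ (Finset.mem_univ (0 : F))]
  rw [mul_zero, mul_zero, mul_zero, CC_zero, chi_zero]
  ring

theorem sq_inj {a b : F} (h : a ^ 2 = b ^ 2) : a = b := by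
  have h2 : (a - b) ^ 2 = 0 := by
    have h3 : (2 : F) = 0 := CharTwo.two_eq_zero
    linear_combination h + (b ^ 2 - a * b) * h3
  exact sub_eq_zero.1 (pow_eq_zero_iff (two_ne_zero) |>.1 h2)

theorem sq_bij : Function.Bijective (fun a : F => a ^ 2) :=
  (Finite.injective_iff_bijective).1 (fun _ _ h => sq_inj h)

/-- substitution `t = 1 + X` -/
theorem sum_shift (g : F → ℤ) (a : F) : ∑ t : F, g t = ∑ t : F, g (t + a) :=
  (Fintype.sum_equiv (Equiv.addRight a) _ _ (fun _ => rfl)).symm

theorem sum_scale (g : F → ℤ) (a : F) (ha : a ≠ 0) : ∑ t : F, g t = ∑ t : F, g (t * a) :=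
  (Fintype.sum_equiv (Equiv.mulRight₀ a ha) _ _ (fun _ => rfl)).symm

theorem sum_ite_one {P : F → Prop} [DecidablePred P] (x0 : F) (h : ∀ x, P x ↔ x = x0) :
    ∑ x : F, (if P x then (1 : ℤ) else 0) = 1 := by
  rw [Finset.sum_eq_single x0]
  · rw [if_pos ((h x0).2 rfl)]
  · intro b _ hb
    rw [if_neg (fun hp => hb ((h b).1 hp))]
  · intro h0; exact absurd (Finset.mem_univ _) h0

theorem sum_ite_zero {P : F → Prop} [DecidablePred P] (h : ∀ x, ¬ P x) :
    ∑ x : F, (if P x then (1 : ℤ) else 0) = 0 := by
  apply Finset.sum_eq_zero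
  intro x _
  rw [if_neg (h x)]

theorem b1_ok : StmB1 := by
  intro F _ _ _ p s hp hs
  have h2 : (2 : F) = 0 := CharTwo.two_eq_zero
  have e1 : ∑ w ∈ univ.erase (0 : F), CC (p * w) * CC (s * w) =
      ∑ w ∈ univ.erase (0 : F), CC (p * w) * CC (s * w) * chi (0 * w) := by
    apply Finset.sum_congr rfl
    intro w _
    rw [zero_mul, chi_zero, mul_one]
  rw [e1, sum_erase_CC]
  -- counting
  have hM : (∑ t : F, ∑ u : F, if p * (t ^ 3 + t) + s * (u ^ 3 + u) + 0 = 0 then (1 : ℤ) else 0) =
      2 + ∑ m : F, ∑ X ∈ univ.erase (0 : F),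
        if X * (p + s * m ^ 3) + (s * m ^ 2 + p) = 0 then (1 : ℤ) else 0 := by
    rw [sum_shift _ (1 : F)]
    have e2 : ∀ X : F, (∑ u : F, if p * ((X + 1) ^ 3 + (X + 1)) + s * (u ^ 3 + u) + 0 = 0
        then (1 : ℤ) else 0) = ∑ Y : F, if p * (X ^ 2 * (X + 1)) + s * (Y ^ 2 * (Y + 1)) = 0
        then (1 : ℤ) else 0 := by
      intro X
      rw [sum_shift _ (1 : F)]
      apply Finset.sum_congr rfl
      intro Y _
      congr 1
      apply propext
      have : p * ((X + 1) ^ 3 + (X + 1)) + s * ((Y + 1) ^ 3 + (Y + 1)) + 0 =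
          p * (X ^ 2 * (X + 1)) + s * (Y ^ 2 * (Y + 1)) := by
        linear_combination (p * (X ^ 2 + 2 * X + 1) + s * (Y ^ 2 + 2 * Y + 1)) * h2
      rw [this]
    simp_rw [e2]
    rw [← Finset.add_sum_erase univ _ (Finset.mem_univ (0 : F))]
    congr 1
    · -- X = 0
      have : ∀ Y : F, (p * (0 ^ 2 * (0 + 1)) + s * (Y ^ 2 * (Y + 1)) = 0) ↔ (Y = 0 ∨ Y = 1) := by
        intro Y
        constructor
        · intro h
          have h3 : s * (Y ^ 2 * (Y + 1)) = 0 := by linear_combination h
          rcases mul_eq_zero.1 h3 with h4 | h4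
          · exact absurd h4 hs
          · rcases mul_eq_zero.1 h4 with h5 | h5
            · left; exact pow_eq_zero_iff (two_ne_zero) |>.1 h5
            · right; linear_combination h5 - h2
        · rintro (h | h) <;> rw [h]
          · ring
          · linear_combination s * h2
      simp_rw [this]
      rw [← Finset.sum_filter, Finset.sum_const, nsmul_eq_mul, mul_one]
      have h3 : (univ.filter fun Y : F => Y = 0 ∨ Y = 1) = {0, 1} := by
        ext Y; simp
      rw [h3, Finset.card_pair zero_ne_one]; norm_num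
    · conv_rhs => rw [Finset.sum_comm]
      apply Finset.sum_congr rfl
      intro X hX
      have hX0 : X ≠ 0 := (Finset.mem_erase.1 hX).1
      rw [sum_scale _ X hX0]
      apply Finset.sum_congr rfl
      intro m _
      congr 1
      apply propext
      constructor
      · intro h
        have h3 : X ^ 2 * (X * (p + s * m ^ 3) + (s * m ^ 2 + p)) = 0 := by
          linear_combination h
        rcases mul_eq_zero.1 h3 with h4 | h4
        · exact absurd (pow_eq_zero_iff (two_ne_zero) |>.1 h4) hX0
        · exact h4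
      · intro h
        linear_combination X ^ 2 * h
  have hin : ∀ m : F, (∑ X ∈ univ.erase (0 : F),
        if X * (p + s * m ^ 3) + (s * m ^ 2 + p) = 0 then (1 : ℤ) else 0) =
      1 - (if p + s * m ^ 3 = 0 then (1 : ℤ) else 0) - (if s * m ^ 2 + p = 0 then (1 : ℤ) else 0) +
        Fintype.card F * (if p = s ∧ m = 1 then (1 : ℤ) else 0) := by
    intro m
    have hsplit : (∑ X ∈ univ.erase (0 : F),
        if X * (p + s * m ^ 3) + (s * m ^ 2 + p) = 0 then (1 : ℤ) else 0) =
        (∑ X : F, if X * (p + s * m ^ 3) + (s * m ^ 2 + p) = 0 then (1 : ℤ) else 0) -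
          (if s * m ^ 2 + p = 0 then (1 : ℤ) else 0) := by
      rw [← Finset.add_sum_erase univ _ (Finset.mem_univ (0 : F))]
      rw [zero_mul, zero_add]; ring
    rw [hsplit]
    by_cases hA : p + s * m ^ 3 = 0
    · by_cases hB : s * m ^ 2 + p = 0
      · have hm0 : m ≠ 0 := by
          rintro rfl
          apply hp
          linear_combination hA
        have hm : m = 1 := by
          have h3 : s * m ^ 2 * (m + 1) = 0 := by linear_combination hA + hB - p * h2
          rcases mul_eq_zero.1 h3 with h4 | h4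
          · rcases mul_eq_zero.1 h4 with h5 | h5
            · exact absurd h5 hs
            · exact absurd (pow_eq_zero_iff (two_ne_zero) |>.1 h5) hm0
          · linear_combination h4 - h2
        have hps : p = s := by
          rw [hm] at hB
          linear_combination hB - s * h2
        rw [if_pos hA, if_pos hB, if_pos ⟨hps, hm⟩]
        have : ∀ X : F, X * (p + s * m ^ 3) + (s * m ^ 2 + p) = 0 := by
          intro X; rw [hA, hB]; ring
        simp only [this, if_true, Finset.sum_const, Finset.card_univ, nsmul_eq_mul, mul_one]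
        ring
      · rw [if_pos hA, if_neg hB, if_neg]
        · have : ∀ X : F, ¬ (X * (p + s * m ^ 3) + (s * m ^ 2 + p) = 0) := by
            intro X; rw [hA, mul_zero, zero_add]; exact hB
          rw [sum_ite_zero this]; ring
        · rintro ⟨h3, h4⟩
          apply hB
          rw [h3, h4]
          linear_combination s * h2
    · have hneg : ¬ (p = s ∧ m = 1) := by
        rintro ⟨h3, h4⟩
        apply hA
        rw [h3, h4]
        linear_combination s * h2
      rw [if_neg hA, if_neg hneg]
      rw [sum_ite_one (-(s * m ^ 2 + p) / (p + s * m ^ 3))]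
      · ring
      · intro x
        rw [eq_div_iff hA]
        constructor
        · intro h; linear_combination h
        · intro h; linear_combination h
  rw [hM]
  simp_rw [hin]
  rw [Finset.sum_add_distrib, Finset.sum_sub_distrib, Finset.sum_sub_distrib, ← Finset.mul_sum]
  have hc : ∑ m : F, (if p + s * m ^ 3 = 0 then (1 : ℤ) else 0) = c3 (p / s) := by
    unfold c3
    rw [← Finset.sum_filter, Finset.sum_const, nsmul_eq_mul, mul_one]
    congr 2
    ext m
    simp only [mem_filter, mem_univ, true_and]
    rw [eq_div_iff hs]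
    constructor
    · intro h; linear_combination h - p * h2
    · intro h; linear_combination h + p * h2
  have hb : ∑ m : F, (if s * m ^ 2 + p = 0 then (1 : ℤ) else 0) = 1 := by
    obtain ⟨r, hr⟩ := sq_bij.2 (p / s)
    have hr' : r ^ 2 * s = p := by
      have : r ^ 2 = p / s := hr
      rw [this, div_mul_cancel₀ _ hs]
    apply sum_ite_one r
    intro x
    constructor
    · intro h
      apply sq_inj
      have h3 : s * (x ^ 2 - r ^ 2) = 0 := by linear_combination h - hr' - p * h2
      rcases mul_eq_zero.1 h3 with h4 | h4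
      · exact absurd h4 hs
      · exact sub_eq_zero.1 h4
    · rintro rfl
      linear_combination hr' + p * h2
  have ha : ∑ m : F, (if p = s ∧ m = 1 then (1 : ℤ) else 0) = if p = s then 1 else 0 := by
    by_cases h : p = s
    · rw [if_pos h]
      exact sum_ite_one (1 : F) (fun x => ⟨fun h3 => h3.2, fun h3 => ⟨h, h3⟩⟩)
    · rw [if_neg h]
      exact sum_ite_zero (fun x h3 => h h3.1)
  rw [hc, hb, ha]
  simp only [Finset.sum_const, Finset.card_univ, nsmul_eq_mul, mul_one]
  split_ifs <;> ring

end

end Pool.Agent.R906.KT
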