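import Pool.Agent.R906.KT.B1

/-!
# Piece B2 (n odd) of the Kasami triple counts
-/

namespace Pool.Agent.R906.KT

open Finset Pool.Agent.R48.KT
open scoped Classical

noncomputable section

set_option linter.unusedSectionVars false

variable {F : Type} [Field F] [Fintype F] [CharP F 2]

/-- the polynomial `Om(e) = g⁴ + S² g² e² + g e³`, `g = Q e + 1`. -/
def Om (Q S e : F) : F :=
  (Q * e + 1) ^ 4 + S ^ 2 * (Q * e + 1) ^ 2 * e ^ 2 + (Q * e + 1) * e ^ 3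

theorem chi3 (A B C : F) : chi (A + B ^ 2 + (C ^ 2) ^ 2) = chi (A + B + C) := by
  rw [chi_add, chi_add, chi_sq, chi_sq, chi_sq, ← chi_add, ← chi_add]

theorem chi2 (A B : F) : chi (A + B ^ 2) = chi (A + B) := by
  rw [chi_add, chi_sq, ← chi_add]

theorem chi_Om (P1 S1 t : F) :
    chi (Om (P1 ^ 4 + S1 ^ 4) (S1 ^ 4) (t + (P1 ^ 2 * S1 ^ 2 + (P1 + S1)) ^ 2)) =
      chi (1 + P1 ^ 12 + S1 ^ 12) * chi (t ^ 3 + P1 ^ 8 * S1 ^ 8 * t) := by
  have h2 : (2 : F) = 0 := CharTwo.two_eq_zero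
  obtain ⟨Q1, hQ1⟩ : ∃ Q1, Q1 = P1 + S1 := ⟨_, rfl⟩
  have hQ : P1 ^ 4 + S1 ^ 4 = Q1 ^ 4 := by
    rw [hQ1]
    linear_combination (-(2 * P1 ^ 3 * S1 + 3 * P1 ^ 2 * S1 ^ 2 + 2 * P1 * S1 ^ 3)) * h2
  obtain ⟨a, ha⟩ : ∃ a, a = P1 ^ 2 * S1 ^ 2 := ⟨_, rfl⟩
  obtain ⟨et, het⟩ : ∃ et, et = a + Q1 := ⟨_, rfl⟩
  obtain ⟨e, he⟩ : ∃ e, e = t + et ^ 2 := ⟨_, rfl⟩
  have hL : Q1 ^ 4 + S1 ^ 4 + S1 ^ 2 * Q1 ^ 2 + Q1 = a ^ 4 + et + et ^ 4 := by
    rw [het, ha]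
    have h3 : Q1 ^ 2 = P1 ^ 2 + S1 ^ 2 := by
      rw [hQ1]; linear_combination (P1 * S1) * h2
    have h4 : S1 ^ 2 * Q1 ^ 2 = P1 ^ 2 * S1 ^ 2 + S1 ^ 4 := by rw [h3]; ring
    linear_combination h4 + (S1 ^ 4 - (P1 ^ 2 * S1 ^ 2) ^ 4 - 2 * (P1 ^ 2 * S1 ^ 2) ^ 3 * Q1
      - 3 * (P1 ^ 2 * S1 ^ 2) ^ 2 * Q1 ^ 2 - 2 * (P1 ^ 2 * S1 ^ 2) * Q1 ^ 3) * h2
  rw [← ha, ← hQ1, ← het, ← he, hQ]
  have e1 : Om (Q1 ^ 4) (S1 ^ 4) e = (Q1 ^ 4 * e + 1) * e ^ 3 + (S1 ^ 4 * (Q1 ^ 4 * e + 1) * e) ^ 2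
      + ((Q1 ^ 4 * e + 1) ^ 2) ^ 2 := by
    unfold Om; ring
  rw [e1, chi3]
  have e2 : (Q1 ^ 4 * e + 1) * e ^ 3 + S1 ^ 4 * (Q1 ^ 4 * e + 1) * e + (Q1 ^ 4 * e + 1) =
      (1 + e ^ 3 + (Q1 ^ 4 + S1 ^ 4) * e) + (S1 ^ 2 * Q1 ^ 2 * e) ^ 2 + ((Q1 * e) ^ 2) ^ 2 := by
    ring
  rw [e2, chi3]
  have e3 : 1 + e ^ 3 + (Q1 ^ 4 + S1 ^ 4) * e + S1 ^ 2 * Q1 ^ 2 * e + Q1 * e =
      (1 + (t ^ 3 + a ^ 4 * t) + t * et + (a ^ 4 * et ^ 2 + et ^ 3)) + (t * et) ^ 2 := by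
    rw [he]
    linear_combination (t + et ^ 2) * hL + (t ^ 2 * et ^ 2 + 2 * t * et ^ 4 + et ^ 6) * h2
  rw [e3, chi2]
  have e4 : (1 + (t ^ 3 + a ^ 4 * t) + t * et + (a ^ 4 * et ^ 2 + et ^ 3)) + t * et =
      (1 + (t ^ 3 + a ^ 4 * t)) + (a ^ 4 * et ^ 2 + et ^ 3) := by
    linear_combination (t * et) * h2
  have e5 : chi (a ^ 4 * et ^ 2 + et ^ 3) = chi (P1 ^ 12 + S1 ^ 12) := by
    rw [← chi2]
    have e6 : a ^ 4 * et ^ 2 + (et ^ 3) ^ 2 = a ^ 2 * Q1 ^ 4 + Q1 ^ 6 := by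
      rw [het]
      linear_combination (a * Q1 * Q1 ^ 4 + (a + Q1) ^ 2 * (a ^ 4 + 2 * a ^ 3 * Q1 +
        3 * a ^ 2 * Q1 ^ 2 + 2 * a * Q1 ^ 3)) * h2
    rw [e6, ← chi2]
    congr 1
    have e7 : (Q1 ^ 6) ^ 2 = (Q1 ^ 4) ^ 3 := by ring
    rw [e7, ← hQ, ha]
    linear_combination (2 * P1 ^ 8 * S1 ^ 4 + 2 * P1 ^ 4 * S1 ^ 8) * h2
  rw [e4, chi_add, chi_add, e5]
  have e8 : a ^ 4 = P1 ^ 8 * S1 ^ 8 := by rw [ha]; ring
  rw [e8]
  have e9 : chi (1 + P1 ^ 12 + S1 ^ 12) = chi (1 : F) * chi (P1 ^ 12 + S1 ^ 12) := by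
    rw [← chi_add]; congr 1; ring
  rw [e9]
  ring

theorem cube_inj (hchi : chi (1 : F) = -1) : ∀ a b : F, a ^ 3 = b ^ 3 → a = b := by
  have h2 : (2 : F) = 0 := CharTwo.two_eq_zero
  intro a b hab
  by_contra hne
  have h3 : (a - b) * (a ^ 2 + a * b + b ^ 2) = 0 := by linear_combination hab
  rcases mul_eq_zero.1 h3 with h4 | h4
  · exact hne (sub_eq_zero.1 h4)
  · by_cases hb : b = 0
    · subst hb
      have : a ^ 3 = 0 := by rw [hab]; ring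
      exact hne (pow_eq_zero_iff (by norm_num) |>.1 this)
    · have h5 : (a / b) ^ 2 + a / b = 1 := by
        field_simp
        linear_combination h4 - b ^ 2 * h2
      have h6 : chi (1 : F) = 1 := (chi_eq_one_iff _).2 ⟨_, h5⟩
      rw [hchi] at h6; norm_num at h6

theorem c3_one (hchi : chi (1 : F) = -1) (m : F) : c3 m = 1 := by
  have hbij : Function.Bijective (fun a : F => a ^ 3) :=
    (Finite.injective_iff_bijective).1 (fun _ _ h => cube_inj hchi _ _ h)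
  obtain ⟨r, hr⟩ := hbij.2 m
  have hr' : r ^ 3 = m := hr
  unfold c3
  have : (univ.filter fun t : F => t ^ 3 = m) = {r} := by
    ext t
    simp only [mem_filter, mem_univ, true_and, mem_singleton]
    constructor
    · intro h; exact cube_inj hchi _ _ (h.trans hr'.symm)
    · rintro rfl; exact hr'
  rw [this]; simp

theorem sum_ite_card {P : F → Prop} [DecidablePred P] :
    ∑ x : F, (if P x then (1 : ℤ) else 0) = ((univ.filter P).card : ℤ) := by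
  rw [← Finset.sum_filter, Finset.sum_const, nsmul_eq_mul, mul_one]

theorem b2odd_ok : StmB2odd := by
  intro F _ _ _ p s hchi hp hs
  have h2 : (2 : F) = 0 := CharTwo.two_eq_zero
  have hbij3 : Function.Bijective (fun a : F => a ^ 3) :=
    (Finite.injective_iff_bijective).1 (fun _ _ h => cube_inj hchi _ _ h)
  have hroot : ∀ m : F, ∃ r : F, r ^ 12 = m := by
    intro m
    obtain ⟨r1, hr1⟩ := hbij3.2 m
    obtain ⟨r2, hr2⟩ := sq_bij.2 r1
    obtain ⟨r3, hr3⟩ := sq_bij.2 r2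
    refine ⟨r3, ?_⟩
    have e1 : r3 ^ 2 = r2 := hr3
    have e2 : r2 ^ 2 = r1 := hr2
    have e3 : r1 ^ 3 = m := hr1
    rw [← e3, ← e2, ← e1]; ring
  obtain ⟨P1, hP1⟩ := hroot p
  obtain ⟨S1, hS1⟩ := hroot s
  have hP10 : P1 ≠ 0 := by
    rintro rfl; apply hp; rw [← hP1]; norm_num
  have hS10 : S1 ≠ 0 := by
    rintro rfl; apply hs; rw [← hS1]; norm_num
  obtain ⟨P, hP⟩ : ∃ P, P = P1 ^ 4 := ⟨_, rfl⟩
  obtain ⟨S, hS⟩ : ∃ S, S = S1 ^ 4 := ⟨_, rfl⟩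
  obtain ⟨Q, hQ⟩ : ∃ Q, Q = P + S := ⟨_, rfl⟩
  have hP0 : P ≠ 0 := by rw [hP]; exact pow_ne_zero _ hP10
  have hS0 : S ≠ 0 := by rw [hS]; exact pow_ne_zero _ hS10
  have hpP : p = P ^ 3 := by rw [hP, ← hP1]; ring
  have hsS : s = S ^ 3 := by rw [hS, ← hS1]; ring
  have e1 : ∑ w ∈ univ.erase (0 : F), CC (p * w) * CC (s * w) * chi w =
      ∑ w ∈ univ.erase (0 : F), CC (p * w) * CC (s * w) * chi (1 * w) := by
    apply Finset.sum_congr rfl
    intro w _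
    rw [one_mul]
  rw [e1, sum_erase_CC, c3_one hchi]
  -- normal form of the count
  have hM1 : (∑ t : F, ∑ u : F, if p * (t ^ 3 + t) + s * (u ^ 3 + u) + 1 = 0 then (1 : ℤ) else 0) =
      ∑ D : F, ∑ X : F, if D * X ^ 2 + (D ^ 2 + Q ^ 2) * X + (D ^ 3 + S ^ 2 * D + 1) = 0
        then (1 : ℤ) else 0 := by
    rw [sum_scale _ (P⁻¹) (inv_ne_zero hP0), Finset.sum_comm (s := (univ : Finset F))
      (f := fun D X => if D * X ^ 2 + (D ^ 2 + Q ^ 2) * X + (D ^ 3 + S ^ 2 * D + 1) = 0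
        then (1 : ℤ) else 0)]
    apply Finset.sum_congr rfl
    intro X _
    rw [sum_scale _ (S⁻¹) (inv_ne_zero hS0), sum_shift _ X]
    apply Finset.sum_congr rfl
    intro D _
    congr 1
    apply propext
    have : p * ((X * P⁻¹) ^ 3 + X * P⁻¹) + s * (((D + X) * S⁻¹) ^ 3 + (D + X) * S⁻¹) + 1 =
        X ^ 3 + P ^ 2 * X + (D + X) ^ 3 + S ^ 2 * (D + X) + 1 := by
      rw [hpP, hsS]; field_simp; ring
    rw [this]
    have : X ^ 3 + P ^ 2 * X + (D + X) ^ 3 + S ^ 2 * (D + X) + 1 =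
        D * X ^ 2 + (D ^ 2 + Q ^ 2) * X + (D ^ 3 + S ^ 2 * D + 1) := by
      rw [hQ]
      linear_combination (X ^ 3 + D * X ^ 2 + D ^ 2 * X - P * S * X) * h2
    rw [this]
  rw [hM1]
  -- the inner counts
  have hG1 : (∑ X : F, if Q * X ^ 2 + (Q ^ 2 + Q ^ 2) * X + (Q ^ 3 + S ^ 2 * Q + 1) = 0
        then (1 : ℤ) else 0) = if Q = 0 then 0 else 1 := by
    by_cases hQ0 : Q = 0
    · rw [if_pos hQ0]
      apply sum_ite_zero
      intro X h
      rw [hQ0] at h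
      apply one_ne_zero (α := F)
      linear_combination h
    · rw [if_neg hQ0]
      obtain ⟨r, hr⟩ := sq_bij.2 ((Q ^ 3 + S ^ 2 * Q + 1) / Q)
      have hr' : r ^ 2 * Q = Q ^ 3 + S ^ 2 * Q + 1 := by
        have : r ^ 2 = (Q ^ 3 + S ^ 2 * Q + 1) / Q := hr
        rw [this, div_mul_cancel₀ _ hQ0]
      apply sum_ite_one r
      intro x
      constructor
      · intro h
        apply sq_inj
        have h3 : Q * (x ^ 2 - r ^ 2) = 0 := by
          linear_combination h + hr' - (Q ^ 2 * x + r ^ 2 * Q) * h2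
        rcases mul_eq_zero.1 h3 with h4 | h4
        · exact absurd h4 hQ0
        · exact sub_eq_zero.1 h4
      · rintro rfl
        linear_combination hr' + (Q ^ 2 * x + Q ^ 3 + S ^ 2 * Q + 1) * h2
  have hG2 : ∀ e : F, e ≠ 0 → (∑ X : F, if (e⁻¹ + Q) * X ^ 2 + ((e⁻¹ + Q) ^ 2 + Q ^ 2) * X +
      ((e⁻¹ + Q) ^ 3 + S ^ 2 * (e⁻¹ + Q) + 1) = 0 then (1 : ℤ) else 0) =
      1 + chi (Om Q S e) - if e⁻¹ + Q = 0 then 1 else 0 := by
    intro e he
    have hB : (e⁻¹ + Q) ^ 2 + Q ^ 2 = (e⁻¹) ^ 2 := by linear_combination (e⁻¹ * Q + Q ^ 2) * h2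
    have hei : e⁻¹ ≠ 0 := inv_ne_zero he
    rw [hB]
    by_cases hD : e⁻¹ + Q = 0
    · have hOm : Om Q S e = 0 := by
        have hg : Q * e + 1 = 0 := by
          have : (e⁻¹ + Q) * e = 0 := by rw [hD, zero_mul]
          rw [add_mul, inv_mul_cancel₀ he] at this
          linear_combination this
        unfold Om; rw [hg]; ring
      rw [hOm, chi_zero, if_pos hD, hD]
      rw [sum_ite_one (-(1 : F) / e⁻¹ ^ 2)]
      · norm_num
      · intro x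
        rw [eq_div_iff (pow_ne_zero 2 hei)]
        constructor
        · intro h; linear_combination h
        · intro h; linear_combination h
    · rw [if_neg hD, sum_ite_card, card_quad _ _ _ hD (pow_ne_zero 2 hei), sub_zero]
      congr 2
      unfold Om
      field_simp
      ring
  rw [sum_shift _ Q, ← Finset.add_sum_erase univ _ (Finset.mem_univ (0 : F))]
  have hz : (∑ X : F, if (0 + Q) * X ^ 2 + ((0 + Q) ^ 2 + Q ^ 2) * X +
      ((0 + Q) ^ 3 + S ^ 2 * (0 + Q) + 1) = 0 then (1 : ℤ) else 0) = if Q = 0 then 0 else 1 := by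
    rw [← hG1]
    simp only [zero_add]
  rw [hz]
  have hsw : (∑ D ∈ univ.erase (0 : F), ∑ X : F, if (D + Q) * X ^ 2 + ((D + Q) ^ 2 + Q ^ 2) * X +
      ((D + Q) ^ 3 + S ^ 2 * (D + Q) + 1) = 0 then (1 : ℤ) else 0) =
      ∑ e ∈ univ.erase (0 : F), (1 + chi (Om Q S e) - if e⁻¹ + Q = 0 then 1 else 0) := by
    apply Finset.sum_nbij' (fun D => D⁻¹) (fun e => e⁻¹)
    · intro D hD
      simp only [mem_erase, mem_univ, and_true] at hD ⊢
      exact inv_ne_zero hD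
    · intro D hD
      simp only [mem_erase, mem_univ, and_true] at hD ⊢
      exact inv_ne_zero hD
    · intro D _; exact inv_inv D
    · intro D _; exact inv_inv D
    · intro D hD
      simp only [mem_erase, mem_univ, and_true] at hD
      rw [← hG2 (D⁻¹) (inv_ne_zero hD), inv_inv]
  rw [hsw]
  have hlast : ∑ e ∈ univ.erase (0 : F), (if e⁻¹ + Q = 0 then (1 : ℤ) else 0) =
      if Q = 0 then 0 else 1 := by
    by_cases hQ0 : Q = 0
    · rw [if_pos hQ0]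
      apply Finset.sum_eq_zero
      intro e he
      simp only [mem_erase, mem_univ, and_true] at he
      rw [if_neg]
      rw [hQ0, add_zero]; exact inv_ne_zero he
    · rw [if_neg hQ0, Finset.sum_eq_single (Q⁻¹)]
      · rw [if_pos]; rw [inv_inv]; linear_combination Q * h2
      · intro b hb hbQ
        rw [if_neg]
        intro h
        apply hbQ
        have : b⁻¹ = Q := by linear_combination h - Q * h2
        rw [← this, inv_inv]
      · intro h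
        exact absurd (Finset.mem_erase.2 ⟨inv_ne_zero hQ0, Finset.mem_univ _⟩) h
  have hOm0 : chi (Om Q S 0) = -1 := by
    have : Om Q S 0 = 1 := by unfold Om; ring
    rw [this, hchi]
  have hsumOm : ∑ e : F, chi (Om Q S e) = chi (1 + p + s) * CC (p * s) := by
    rw [sum_shift _ ((P1 ^ 2 * S1 ^ 2 + (P1 + S1)) ^ 2)]
    have e3 : ∀ t : F, chi (Om Q S (t + (P1 ^ 2 * S1 ^ 2 + (P1 + S1)) ^ 2)) =
        chi (1 + p + s) * chi (t ^ 3 + P ^ 2 * S ^ 2 * t) := by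
      intro t
      rw [hQ, hP, hS, chi_Om, hP1, hS1]
      congr 2
      ring
    simp_rw [e3]
    rw [← Finset.mul_sum, sum_scale _ (P * S) (mul_ne_zero hP0 hS0)]
    congr 1
    unfold CC
    apply Finset.sum_congr rfl
    intro t _
    congr 1
    rw [hpP, hsS]; ring
  have hsplit : ∑ e ∈ univ.erase (0 : F), chi (Om Q S e) = chi (1 + p + s) * CC (p * s) + 1 := by
    have h3 := Finset.add_sum_erase univ (fun e => chi (Om Q S e)) (Finset.mem_univ (0 : F))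
    rw [hOm0, hsumOm] at h3
    linarith
  rw [Finset.sum_sub_distrib, Finset.sum_add_distrib, hlast, hsplit, Finset.sum_const,
    Finset.card_erase_of_mem (Finset.mem_univ _), Finset.card_univ, nsmul_eq_mul, mul_one]
  have hpos : 1 ≤ Fintype.card F := Fintype.card_pos
  rw [Nat.cast_sub hpos]
  push_cast
  ring

end

end Pool.Agent.R906.KT
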