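import Pool.Agent.R906.KT.B1

/-!
# Piece D5 of the Kasami triple counts: moments of `E`
-/

namespace Pool.Agent.R906.KT

open Finset Pool.Agent.R48.KT
open scoped Classical

noncomputable section

set_option linter.unusedSectionVars false

theorem d5_ok : StmD5 := by
  intro F _ _ _ r hr hbij
  have h2 : (2 : F) = 0 := CharTwo.two_eq_zero
  have hr0 : r ≠ 0 := by omega
  have hzero : ∀ y : F, y ^ r = 0 ↔ y = 0 := fun y => pow_eq_zero_iff hr0
  have hN : ∀ a : F, ∑ c : F, chi (a * c) = if a = 0 then (Fintype.card F : ℤ) else 0 := sum_chi_mul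
  -- the double sum T
  obtain ⟨T, hT⟩ : ∃ T : F → F → ℤ, ∀ c c', T c c' =
    ∑ y : F, ∑ y' : F, chi (c * y ^ r + y + (c' * y' ^ r + y')) := ⟨_, fun _ _ => rfl⟩
  have hT00 : T 0 0 = 0 := by
    rw [hT]
    have : ∀ y : F, ∑ y' : F, chi (0 * y ^ r + y + (0 * y' ^ r + y')) = 0 := by
      intro y
      have h3 : ∀ y' : F, chi (0 * y ^ r + y + (0 * y' ^ r + y')) = chi y * chi y' := by
        intro y'
        rw [← chi_add]; congr 1; ring
      simp_rw [h3]
      rw [← Finset.mul_sum, sum_chi, mul_zero]
    simp_rw [this]
    simp
  have hTsum : ∀ om : F, om ^ 3 = 1 → ∑ c : F, T c (om * c) =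
      if om = 1 then (Fintype.card F : ℤ) ^ 2 else 0 := by
    intro om hom
    obtain ⟨om', hom'⟩ := hbij.2 om
    have hom'' : om' ^ r = om := hom'
    have h3 : ∑ c : F, T c (om * c) = ∑ y' : F, ∑ y : F, ∑ c : F,
        chi ((y ^ r + om * y' ^ r) * c) * chi (y + y') := by
      simp_rw [hT]
      rw [Finset.sum_comm]
      rw [Finset.sum_comm (s := (univ : Finset F)) (t := (univ : Finset F))
        (f := fun y' y => ∑ c : F, chi ((y ^ r + om * y' ^ r) * c) * chi (y + y'))]
      apply Finset.sum_congr rfl
      intro y _
      rw [Finset.sum_comm]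
      apply Finset.sum_congr rfl
      intro y' _
      apply Finset.sum_congr rfl
      intro c _
      rw [← chi_add]
      congr 1; ring
    rw [h3]
    have h4 : ∀ y' : F, (∑ y : F, ∑ c : F, chi ((y ^ r + om * y' ^ r) * c) * chi (y + y')) =
        Fintype.card F * chi ((om' + 1) * y') := by
      intro y'
      simp_rw [← Finset.sum_mul, hN]
      rw [Finset.sum_eq_single (om' * y')]
      · rw [if_pos]
        · congr 2; ring
        · rw [mul_pow, hom'']; linear_combination (om * y' ^ r) * h2
      · intro b _ hb
        rw [if_neg, zero_mul]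
        intro h
        apply hb
        apply hbij.1
        change b ^ r = (om' * y') ^ r
        rw [mul_pow, hom'']
        linear_combination h - (om * y' ^ r) * h2
      · intro h; exact absurd (Finset.mem_univ _) h
    simp_rw [h4]
    rw [← Finset.mul_sum, hN]
    by_cases h1 : om = 1
    · have h5 : om' = 1 := by
        apply hbij.1
        change om' ^ r = 1 ^ r
        rw [hom'', h1, one_pow]
      rw [if_pos h1, if_pos]
      · ring
      · rw [h5]; linear_combination h2
    · rw [if_neg h1, if_neg, mul_zero]
      intro h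
      apply h1
      have h5 : om' = 1 := by linear_combination h - h2
      rw [← hom'', h5, one_pow]
  refine ⟨?_, ?_, ?_⟩
  · -- first moment
    unfold EE
    rw [Finset.sum_comm]
    have h3 : ∀ c : F, (∑ x : F, ∑ y : F, chi (x * c ^ 3 + c * y ^ r + y)) =
        (∑ x : F, chi (c ^ 3 * x)) * ∑ y : F, chi (c * y ^ r + y) := by
      intro c
      rw [Finset.sum_mul_sum]
      apply Finset.sum_congr rfl
      intro x _
      apply Finset.sum_congr rfl
      intro y _
      rw [← chi_add]; congr 1; ring
    simp_rw [h3, hN]
    apply Finset.sum_eq_zero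
    intro c _
    by_cases hc : c = 0
    · subst hc
      have : ∑ y : F, chi (0 * y ^ r + y) = 0 := by
        simp_rw [zero_mul, zero_add]
        exact sum_chi
      rw [this, mul_zero]
    · rw [if_neg (pow_ne_zero 3 hc), zero_mul]
  · -- second moment
    have h3 : ∀ x : F, EE r x ^ 2 = ∑ c : F, ∑ c' : F, chi ((c ^ 3 + c' ^ 3) * x) * T c c' := by
      intro x
      unfold EE
      rw [sq, Finset.sum_mul_sum]
      apply Finset.sum_congr rfl
      intro c _
      apply Finset.sum_congr rfl
      intro c' _
      rw [Finset.sum_mul_sum, hT, Finset.mul_sum]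
      apply Finset.sum_congr rfl
      intro y _
      rw [Finset.mul_sum]
      apply Finset.sum_congr rfl
      intro y' _
      rw [← chi_add, ← chi_add]
      congr 1; ring
    simp_rw [h3]
    rw [Finset.sum_comm]
    have h4 : ∀ c : F, (∑ x : F, ∑ c' : F, chi ((c ^ 3 + c' ^ 3) * x) * T c c') =
        ∑ om : F, (if om ^ 3 = 1 then (Fintype.card F : ℤ) else 0) * T c (om * c) := by
      intro c
      rw [Finset.sum_comm]
      have h5 : ∀ c' : F, (∑ x : F, chi ((c ^ 3 + c' ^ 3) * x) * T c c') =
          (if c ^ 3 + c' ^ 3 = 0 then (Fintype.card F : ℤ) else 0) * T c c' := by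
        intro c'
        rw [← Finset.sum_mul, hN]
      simp_rw [h5]
      by_cases hc : c = 0
      · subst hc
        rw [Finset.sum_eq_single (0 : F)]
        · rw [hT00, mul_zero]
          symm
          apply Finset.sum_eq_zero
          intro om _
          rw [mul_zero, hT00, mul_zero]
        · intro b _ hb
          rw [if_neg, zero_mul]
          intro h
          apply hb
          have : b ^ 3 = 0 := by linear_combination h
          exact (pow_eq_zero_iff (by norm_num)).1 this
        · intro h; exact absurd (Finset.mem_univ _) h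
      · rw [sum_scale _ c hc]
        apply Finset.sum_congr rfl
        intro om _
        congr 1
        have hiff : c ^ 3 + (om * c) ^ 3 = 0 ↔ om ^ 3 = 1 := by
          constructor
          · intro h
            have h6 : c ^ 3 * (1 + om ^ 3) = 0 := by linear_combination h
            rcases mul_eq_zero.1 h6 with h7 | h7
            · exact absurd h7 (pow_ne_zero 3 hc)
            · linear_combination h7 - h2
          · intro h
            linear_combination c ^ 3 * h + c ^ 3 * h2
        simp only [hiff]
    simp_rw [h4]
    rw [Finset.sum_comm]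
    have h6 : ∀ om : F, (∑ c : F, (if om ^ 3 = 1 then (Fintype.card F : ℤ) else 0) * T c (om * c)) =
        if om = 1 then (Fintype.card F : ℤ) ^ 3 else 0 := by
      intro om
      rw [← Finset.mul_sum]
      by_cases hom : om ^ 3 = 1
      · rw [if_pos hom, hTsum om hom]
        split_ifs <;> ring
      · rw [if_neg hom, zero_mul, if_neg]
        rintro rfl
        exact hom (one_pow 3)
    simp_rw [h6]
    rw [Finset.sum_ite_eq' univ (1 : F) (fun _ => (Fintype.card F : ℤ) ^ 3)]
    simp
  · -- value at zero
    unfold EE
    rw [Finset.sum_comm]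
    have h3 : ∀ y : F, (∑ c : F, chi (0 * c ^ 3 + c * y ^ r + y)) =
        (if y = 0 then (Fintype.card F : ℤ) else 0) * chi y := by
      intro y
      have h4 : ∀ c : F, chi (0 * c ^ 3 + c * y ^ r + y) = chi (y ^ r * c) * chi y := by
        intro c
        rw [← chi_add]; congr 1; ring
      simp_rw [h4]
      rw [← Finset.sum_mul, hN]
      simp only [hzero]
    simp_rw [h3]
    rw [Finset.sum_eq_single (0 : F)]
    · rw [if_pos rfl, chi_zero, mul_one]
    · intro b _ hb
      rw [if_neg hb, zero_mul]
    · intro h; exact absurd (Finset.mem_univ _) h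

end

end Pool.Agent.R906.KT
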